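import Pool.Agent.Helper62.GX.Stm
import Pool.Agent.Helper90.CX.Irr

/-!
# G_Irr, G_IrrHalf: the forms of the irreducibility for arbitrary cyclic covers
-/

set_option autoImplicit false
set_option linter.unusedSectionVars false

open Polynomial Matrix Finset

namespace Pool.Agent.Helper90.GX

open Pool.Agent.Helper62.BM Pool.Agent.Helper62.BW Pool.Agent.Helper62.BX Pool.Agent.Helper62.CX
open Pool.Agent.Helper62.GX
open Pool.Agent.Helper90.BW (pol pol_coeff pol_mem pol_coeff_ge pol_eq pol_surj pol_inj coeff_dE)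
open Pool.Agent.Helper90.CX (th th_inj W_ne bil bil_apply bil_pol d_mul d_mulVec d_dot dt_mul)

section conn

variable {ι : Type} [Fintype ι] [DecidableEq ι]
variable {k : Type} [Field k] [CharZero k] {m N : ℕ} {ρ nd : ι → ℕ}
  {a : ι → k[X][X]} {D : Cdat k N} {P S : Fin N → k[X][X]}
  {E : Type} [Field E] [Algebra (KX k) E]

/-- the relation -/
def Rl (m : ℕ) (ρ : ι → ℕ) (a : ι → k[X][X]) (P S u : E[X]) : Prop :=
  (m : E[X]) * P * ((∏ l, a l).map ((algebraMap (KX k) E).comp (Helper62.BM.ι k))) +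
    S * (LamG ρ a (fun l => derivative (a l))).map
      ((algebraMap (KX k) E).comp (Helper62.BM.ι k)) =
    u * (LamG ρ a (fun l => dt (a l))).map ((algebraMap (KX k) E).comp (Helper62.BM.ι k))

theorem sol (hN : 1 ≤ N) (hF : FamG m ρ nd a D P S) (hOk : D.Ok) (δ : Der E)
    (u : Fin N → E) : ∃ P0 S0 : E[X], P0.natDegree < N ∧ S0.natDegree ≤ N ∧
      Rl m ρ a P0 S0 (pol E N u) ∧
      dE δ (pol E N u) - P0 - derivative S0 =
        pol E N ((fun i => δ (u i)) + (D.B.map (algebraMap (KX k) E)) *ᵥ u) := by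
  obtain ⟨-, -, hR, hDM⟩ := hF
  have hθW : th k E D.W ≠ 0 := (map_ne_zero_iff _ th_inj).2 (W_ne hOk)
  set θ : k[X] →+* E := th k E with hθ
  set F : k[X][X] := ∏ l, a l with hFF
  set L1 : k[X][X] := LamG ρ a (fun l => derivative (a l)) with hL1
  set L2 : k[X][X] := LamG ρ a (fun l => dt (a l)) with hL2
  have hrel : ∀ l : Fin N, (m : E[X]) * (P l).map θ * (F.map θ) +
      (S l).map θ * L1.map θ =
      Polynomial.C (θ D.W) * X ^ (l : ℕ) * L2.map θ := by
    intro l
    have h3 := congrArg (fun q => Polynomial.map θ q) (hR l).2.2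
    simp only [Polynomial.map_mul, Polynomial.map_add, Polynomial.map_pow, Polynomial.map_X,
      Polynomial.map_C, Polynomial.map_natCast] at h3
    exact h3
  set P0 : E[X] := ∑ l, Polynomial.C (u l * (θ D.W)⁻¹) * (P l).map θ with hP0
  set S0 : E[X] := ∑ l, Polynomial.C (u l * (θ D.W)⁻¹) * (S l).map θ with hS0
  have dP0 : P0.natDegree ≤ N - 1 := by
    refine natDegree_sum_le_of_forall_le _ _ fun l _ => (natDegree_C_mul_le _ _).trans ?_
    have := (hR l).1
    exact natDegree_map_le.trans (by omega)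
  have dS0 : S0.natDegree ≤ N := by
    refine natDegree_sum_le_of_forall_le _ _ fun l _ => (natDegree_C_mul_le _ _).trans ?_
    exact natDegree_map_le.trans (hR l).2.1
  refine ⟨P0, S0, by omega, dS0, ?_, ?_⟩
  · show (m : E[X]) * P0 * (F.map θ) + S0 * L1.map θ = pol E N u * L2.map θ
    rw [hP0, hS0, Finset.mul_sum, Finset.sum_mul, Finset.sum_mul, ← Finset.sum_add_distrib,
      pol_eq, Finset.sum_mul]
    refine Finset.sum_congr rfl fun l _ => ?_
    have e1 : (m : E[X]) * (Polynomial.C (u l * (θ D.W)⁻¹) * (P l).map θ) * (F.map θ) +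
        Polynomial.C (u l * (θ D.W)⁻¹) * (S l).map θ * L1.map θ =
        Polynomial.C (u l * (θ D.W)⁻¹) * ((m : E[X]) * (P l).map θ * (F.map θ) +
          (S l).map θ * L1.map θ) := by ring
    rw [e1, hrel, ← mul_assoc, ← mul_assoc, ← C_mul, mul_assoc (u l), inv_mul_cancel₀ hθW,
      mul_one]
  · ext j
    rw [coeff_sub, coeff_sub, coeff_dE, coeff_derivative]
    rcases lt_or_ge j N with hm | hm
    · have e1 := pol_coeff E N u ⟨j, hm⟩
      have e2 := pol_coeff E N ((fun i => δ (u i)) +
        (D.B.map (algebraMap (KX k) E)) *ᵥ u) ⟨j, hm⟩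
      simp only at e1 e2
      rw [e1, e2, Pi.add_apply, Matrix.mulVec, dotProduct, hP0, hS0, finsetSum_coeff,
        finsetSum_coeff, Finset.sum_mul, sub_sub, ← Finset.sum_add_distrib,
        sub_eq_add_neg, ← Finset.sum_neg_distrib]
      congr 1
      refine Finset.sum_congr rfl fun l _ => ?_
      have e3 : algebraMap (KX k) E (D.B ⟨j, hm⟩ l) = θ (D.M ⟨j, hm⟩ l) * (θ D.W)⁻¹ := by
        unfold Cdat.B
        rw [Matrix.of_apply, map_mul, map_inv₀]
        rfl
      have e4 : D.M ⟨j, hm⟩ l = -((P l).coeff j + (S l).coeff (j + 1) * ((j : k[X]) + 1)) := by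
        rw [hDM, Mc, Matrix.of_apply, coeff_add, coeff_derivative]
      rw [Matrix.map_apply, e3, e4, coeff_C_mul, coeff_C_mul, coeff_map, coeff_map,
        map_neg, map_add, map_mul, map_add, map_natCast, map_one]
      ring
    · have e1 := pol_coeff_ge E N u hm
      have e2 := pol_coeff_ge E N ((fun i => δ (u i)) +
        (D.B.map (algebraMap (KX k) E)) *ᵥ u) hm
      rw [e1, e2, map_zero, coeff_eq_zero_of_natDegree_lt (p := P0) (by omega),
        coeff_eq_zero_of_natDegree_lt (p := S0) (by omega)]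
      ring

theorem map_LamG {R R' : Type} [CommRing R] [CommRing R'] (f : R →+* R') (ρ : ι → ℕ)
    (a a' : ι → R) : f (LamG ρ a a') = LamG ρ (fun l => f (a l)) (fun l => f (a' l)) := by
  unfold LamG
  rw [map_sum]
  refine Finset.sum_congr rfl fun l _ => ?_
  rw [map_mul, map_mul, map_prod, map_natCast]

theorem cop {F : Type} [Field F] [CharZero F] (ρ : ι → ℕ) (hρ : ∀ l, 0 < ρ l)
    (b : ι → F[X]) (hs : (∏ l, b l).Separable) :
    IsCoprime (∏ l, b l) (LamG ρ b (fun l => derivative (b l))) := by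
  refine IsCoprime.prod_left fun l _ => ?_
  have e0 : ∏ j, b j = b l * ∏ j ∈ univ.erase l, b j :=
    (Finset.mul_prod_erase _ _ (Finset.mem_univ l)).symm
  rw [e0] at hs
  have c1 : IsCoprime (b l) (∏ j ∈ univ.erase l, b j) := hs.isCoprime
  have c2 : IsCoprime (b l) (derivative (b l)) := hs.of_mul_left
  have hu : IsUnit (ρ l : F[X]) := by
    rw [← Polynomial.C_eq_natCast]
    refine isUnit_C.2 (isUnit_iff_ne_zero.2 ?_)
    have := (hρ l).ne'
    exact_mod_cast this
  have c3 : IsCoprime (b l) ((ρ l : F[X]) * derivative (b l) * ∏ j ∈ univ.erase l, b j) := by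
    rw [mul_assoc]
    exact (isCoprime_mul_unit_left_right hu _ _).2 (c2.mul_right c1)
  have hd : b l ∣ ∑ i ∈ univ.erase l, (ρ i : F[X]) * derivative (b i) *
      ∏ j ∈ univ.erase i, b j := by
    refine Finset.dvd_sum fun i hi => Dvd.dvd.mul_left ?_ _
    exact Finset.dvd_prod_of_mem _ (Finset.mem_erase.2 ⟨(Finset.ne_of_mem_erase hi).symm,
      Finset.mem_univ l⟩)
  obtain ⟨z, hz⟩ := hd
  unfold LamG
  rw [← Finset.add_sum_erase _ _ (Finset.mem_univ l), hz]
  exact c3.add_mul_left_right _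

theorem uniq (hρ : ∀ l, 0 < ρ l ∧ ρ l < m) (hF : FamG m ρ nd a D P S)
    {P1 S1 P2 S2 u : E[X]} (h1 : S1.natDegree ≤ N) (h2 : S2.natDegree ≤ N)
    (e1 : Rl m ρ a P1 S1 u) (e2 : Rl m ρ a P2 S2 u) : P1 = P2 ∧ S1 = S2 := by
  obtain ⟨⟨had, hsep⟩, hN, -, -⟩ := hF
  unfold Rl at e1 e2
  have hchar : CharZero E := charZero_of_injective_ringHom (algebraMap (KX k) E).injective
  set θ : k[X] →+* E := th k E with hθ
  have hm0 : m ≠ 0 := by
    rcases isEmpty_or_nonempty ι with h | ⟨⟨l⟩⟩
    · rw [Finset.univ_eq_empty, Finset.sum_empty] at hN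
      omega
    · have := hρ l
      omega
  have hmE : (m : E) ≠ 0 := by exact_mod_cast hm0
  have hsepE : ((∏ l, a l).map θ).Separable := by
    have h3 : (∏ l, a l).map θ =
        ((∏ l, a l).map (Helper62.BM.ι k)).map (algebraMap (KX k) E) := by
      rw [hθ, th, Polynomial.map_map]
    rw [h3]
    have h4 : ((∏ l, a l).map (Helper62.BM.ι k)).Separable := hsep
    exact h4.map
  have hmon : (∏ l, a l).Monic := monic_prod_of_monic _ _ fun l _ => (had l).1
  have habm : ((∏ l, a l).map θ).Monic := hmon.map _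
  have habd : ((∏ l, a l).map θ).natDegree = N + 1 := by
    rw [hmon.natDegree_map, natDegree_prod_of_monic _ _ fun l _ => (had l).1, hN]
    exact Finset.sum_congr rfl fun l _ => (had l).2
  have e3 : (∏ l, a l).map θ = ∏ l, (a l).map θ := Polynomial.map_prod _ _ _
  have e4 : (LamG ρ a (fun l => derivative (a l))).map θ =
      LamG ρ (fun l => (a l).map θ) (fun l => derivative ((a l).map θ)) := by
    have h3 := map_LamG (mapRingHom θ) ρ a (fun l => derivative (a l))
    rw [coe_mapRingHom] at h3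
    rw [h3]
    simp only [derivative_map]
  have hcop : IsCoprime ((∏ l, a l).map θ)
      ((LamG ρ a (fun l => derivative (a l))).map θ) := by
    rw [e4, e3]
    rw [e3] at hsepE
    exact cop ρ (fun l => (hρ l).1) _ hsepE
  generalize (LamG ρ a (fun l => derivative (a l))).map θ = L1 at *
  generalize (∏ l, a l).map θ = F at *
  have hdiff : (m : E[X]) * (P1 - P2) * F + (S1 - S2) * L1 = 0 := by
    have h3 : (m : E[X]) * (P1 - P2) * F + (S1 - S2) * L1 =
        ((m : E[X]) * P1 * F + S1 * L1) - ((m : E[X]) * P2 * F + S2 * L1) := by ring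
    rw [h3]
    exact sub_eq_zero.2 (e1.trans e2.symm)
  have hS : S1 - S2 = 0 := by
    by_contra hne
    have h4 : F ∣ (S1 - S2) * L1 :=
      ⟨-((m : E[X]) * (P1 - P2)), by linear_combination hdiff⟩
    have h5 : F ∣ S1 - S2 := IsCoprime.dvd_of_dvd_mul_right hcop h4
    have h6 := natDegree_le_of_dvd h5 hne
    have h7 : (S1 - S2).natDegree ≤ N := (natDegree_sub_le _ _).trans (max_le h1 h2)
    omega
  rw [hS, zero_mul, add_zero] at hdiff
  have hmX : (m : E[X]) ≠ 0 := by
    rw [← Polynomial.C_eq_natCast]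
    exact C_ne_zero.2 hmE
  have hP : P1 - P2 = 0 := by
    have h3 := (mul_eq_zero.1 hdiff).resolve_right habm.ne_zero
    exact (mul_eq_zero.1 h3).resolve_left hmX
  exact ⟨sub_eq_zero.1 hP, sub_eq_zero.1 hS⟩

theorem irr1 (hρ : ∀ l, 0 < ρ l ∧ ρ l < m) (hN : 1 ≤ N) (hF : FamG m ρ nd a D P S)
    (hOk : D.Ok) (hI : IrrG k m ρ N a) : Irr k D.B := by
  intro E _ _ _ δ hδ W hW
  set W' : Submodule E E[X] := W.map (pol E N) with hW'
  have hW'le : W' ≤ degreeLT E N := by
    rintro _ ⟨u, -, rfl⟩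
    exact pol_mem _ _ _
  have hstab : ∀ u ∈ W', ∀ P S : E[X], P.natDegree < N → S.natDegree ≤ N →
      Rl m ρ a P S u → dE δ u - P - derivative S ∈ W' := by
    rintro _ ⟨u, hu, rfl⟩ P1 S1 hP1 hS1 h1
    obtain ⟨P0, S0, hP0, hS0, h0, hconn⟩ := sol hN hF hOk δ u
    obtain ⟨eP, eS⟩ := uniq hρ hF hS1 hS0 h1 h0
    rw [eP, eS, hconn]
    exact ⟨_, hW u hu, rfl⟩
  rcases hI E δ hδ W' hW'le hstab with h | h
  · left
    rw [eq_bot_iff]
    intro u hu
    have h1 : pol E N u ∈ W' := ⟨u, hu, rfl⟩
    rw [h, Submodule.mem_bot] at h1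
    rw [Submodule.mem_bot]
    exact pol_inj E N (h1.trans (map_zero _).symm)
  · right
    rw [eq_top_iff]
    intro u _
    have h1 : pol E N u ∈ W' := by
      rw [h]
      exact pol_mem _ _ _
    obtain ⟨v, hv, hvu⟩ := h1
    rw [← pol_inj E N hvu]
    exact hv

theorem bil1 (hρ : ∀ l, 0 < ρ l ∧ ρ l < m) (hN : 1 ≤ N) (hF : FamG m ρ nd a D P S)
    (hOk : D.Ok) (hI : Irr k D.B) (hB : NoBilG k m ρ N a) : NoBil k D.B := by
  intro E _ _ _ δ hδ z hz hlam
  obtain ⟨lam, hlam⟩ := hlam
  have hchar : CharZero E := charZero_of_injective_ringHom (algebraMap (KX k) E).injective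
  set BE : Matrix (Fin N) (Fin N) E := D.B.map (algebraMap (KX k) E) with hBE
  have hdz : z.map (fun u => δ u) = lam • z - BE * z - z * BEᵀ := by
    rw [← hlam]
    abel
  -- the image
  rcases hI E δ hδ (LinearMap.range (Matrix.mulVecLin z)) (by
    rintro _ ⟨y, rfl⟩
    refine ⟨lam • y - BEᵀ *ᵥ y + fun i => δ (y i), ?_⟩
    rw [Matrix.mulVecLin_apply, Matrix.mulVecLin_apply, Matrix.mulVec_add, Matrix.mulVec_sub,
      Matrix.mulVec_smul, Matrix.mulVec_mulVec, d_mulVec, hdz, Matrix.sub_mulVec,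
      Matrix.sub_mulVec, Matrix.smul_mulVec, Matrix.mulVec_mulVec]
    abel) with h | h
  · have h1 : Matrix.mulVecLin z = 0 := LinearMap.range_eq_bot.1 h
    have h2 : Matrix.toLin' z = 0 := by
      rw [← h1]
      rfl
    exact (LinearEquiv.map_eq_zero_iff Matrix.toLin').1 h2
  · exfalso
    have hsurj : Function.Surjective z.mulVec := by
      have := LinearMap.range_eq_top.1 h
      exact this
    have hu : IsUnit z := Matrix.mulVec_surjective_iff_isUnit.1 hsurj
    have hdet : IsUnit z.det := (Matrix.isUnit_iff_isUnit_det z).1 hu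
    set w := z⁻¹ with hw
    have hwz : w * z = 1 := Matrix.nonsing_inv_mul z hdet
    have hzw : z * w = 1 := Matrix.mul_nonsing_inv z hdet
    have hwt : wᵀ = -w := by
      have h1 : wᵀ * zᵀ = 1 := by
        rw [← Matrix.transpose_mul, hzw, Matrix.transpose_one]
      rw [hz, Matrix.mul_neg] at h1
      have h2 : -(wᵀ) = w := by
        calc -(wᵀ) = -(wᵀ) * (z * w) := by rw [hzw, mul_one]
          _ = (-(wᵀ * z)) * w := by rw [← mul_assoc, neg_mul]
          _ = w := by rw [h1, one_mul]
      exact neg_eq_iff_eq_neg.1 h2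
    have hdw : w.map (fun u => δ u) = -(lam • w) + w * BE + BEᵀ * w := by
      have h1 := d_mul δ w z
      rw [hwz] at h1
      have h2 : (1 : Matrix (Fin N) (Fin N) E).map (fun u => δ u) = 0 := by
        ext1 i j
        rw [Matrix.map_apply, Matrix.one_apply, Matrix.zero_apply]
        split_ifs
        · exact Derivation.map_one_eq_zero δ
        · exact map_zero δ
      rw [h2] at h1
      calc w.map (fun u => δ u) = w.map (fun u => δ u) * (z * w) := by rw [hzw, mul_one]
        _ = (w.map (fun u => δ u) * z) * w := by rw [mul_assoc]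
        _ = -(w * z.map (fun u => δ u)) * w := by
            rw [eq_neg_of_add_eq_zero_left h1.symm]
        _ = -(w * (lam • z - BE * z - z * BEᵀ)) * w := by rw [hdz]
        _ = -(lam • (w * z) * w - w * BE * (z * w) - (w * z) * BEᵀ * w) := by
            rw [Matrix.mul_sub, Matrix.mul_sub, Matrix.mul_smul, neg_mul, Matrix.sub_mul,
              Matrix.sub_mul]
            simp only [mul_assoc]
        _ = _ := by
            rw [hwz, hzw, mul_one, one_mul, Matrix.smul_mul, one_mul]
            abel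
    have hzero := hB E δ hδ (bil w) (-lam) (by
      intro f
      have h1 : bil w f f = -bil w f f := by
        conv_lhs => rw [bil_apply, Finset.sum_comm]
        rw [bil_apply, ← Finset.sum_neg_distrib]
        refine Finset.sum_congr rfl fun i _ => ?_
        rw [← Finset.sum_neg_distrib]
        refine Finset.sum_congr rfl fun j _ => ?_
        have h2 := congrFun (congrFun hwt i) j
        rw [Matrix.transpose_apply, Matrix.neg_apply] at h2
        rw [h2]
        ring
      have h2 : (2 : E) * bil w f f = 0 := by linear_combination h1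
      exact (mul_eq_zero.1 h2).resolve_left two_ne_zero) (by
      intro u hu v hv P1 S1 P2 S2 hP1 hS1 hP2 hS2 r1 r2
      obtain ⟨u, rfl⟩ := pol_surj E N hu
      obtain ⟨v, rfl⟩ := pol_surj E N hv
      obtain ⟨P0, S0, hP0, hS0, h0, hconn⟩ := sol hN hF hOk δ u
      obtain ⟨eP, eS⟩ := uniq hρ hF hS1 hS0 r1 h0
      obtain ⟨P0', S0', hP0', hS0', h0', hconn'⟩ := sol hN hF hOk δ v
      obtain ⟨eP', eS'⟩ := uniq hρ hF hS2 hS0' r2 h0'
      rw [eP, eS, hconn, eP', eS', hconn', bil_pol, bil_pol, bil_pol, d_dot, d_mulVec, hdw,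
        ← hBE]
      simp only [Matrix.add_mulVec, Matrix.neg_mulVec, Matrix.smul_mulVec, dotProduct_add,
        add_dotProduct, dotProduct_neg, dotProduct_smul, Matrix.mulVec_add, smul_eq_mul,
        ← Matrix.mulVec_mulVec]
      have h3 : u ⬝ᵥ BEᵀ *ᵥ w *ᵥ v = BE *ᵥ u ⬝ᵥ w *ᵥ v := by
        rw [Matrix.mulVec_transpose, dotProduct_comm u, ← Matrix.dotProduct_mulVec,
          dotProduct_comm]
      rw [h3]
      ring)
    have hw0 : w = 0 := by
      ext1 i j
      have h1 := hzero (pol E N (Pi.single i 1)) (pol_mem _ _ _) (pol E N (Pi.single j 1))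
        (pol_mem _ _ _)
      rw [bil_pol] at h1
      simpa using h1
    rw [hw0, Matrix.zero_mul] at hwz
    have := congrFun (congrFun hwz ⟨0, hN⟩) ⟨0, hN⟩
    rw [Matrix.zero_apply, Matrix.one_apply_eq] at this
    exact zero_ne_one this

end conn

/-- **G9.** -/
theorem g_irr : G_Irr := by
  intro ι _ _ k _ _ m N ρ nd hρ hN a D P S hF hOk
  exact ⟨irr1 hρ hN hF hOk, bil1 hρ hN hF hOk⟩

section half

variable {ι : Type} [DecidableEq ι]

theorem dt_one {A : Type} [CommRing A] : dt (1 : A[X][X]) = 0 := by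
  have h := dt_mul (1 : A[X][X]) 1
  rw [mul_one, mul_one, one_mul] at h
  exact left_eq_add.1 h

theorem dt_prod {A : Type} [CommRing A] (s : Finset ι) (a : ι → A[X][X]) :
    dt (∏ l ∈ s, a l) = ∑ l ∈ s, dt (a l) * ∏ j ∈ s.erase l, a j := by
  induction s using Finset.induction_on with
  | empty => rw [Finset.prod_empty, Finset.sum_empty, dt_one]
  | insert i s hi ih =>
    rw [Finset.prod_insert hi, dt_mul, ih, Finset.sum_insert hi, Finset.erase_insert hi,
      Finset.mul_sum, add_right_inj]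
    refine Finset.sum_congr rfl fun l hl => ?_
    have hil : i ≠ l := fun h => hi (h ▸ hl)
    rw [Finset.erase_insert_of_ne hil, Finset.prod_insert (fun h => hi (Finset.mem_of_mem_erase h))]
    ring

end half

/-- **G10.** -/
theorem g_irrHalf : G_IrrHalf := by
  intro ι _ _ k _ _ m g ρ hm hρ hg a hI E _ _ _ δ hδ W hW hst
  refine hI E δ hδ W hW ?_
  intro u hu P S hP hS h1
  have hchar : CharZero E := charZero_of_injective_ringHom (algebraMap (KX k) E).injective
  set θ : k[X] →+* E := (algebraMap (KX k) E).comp (Helper62.BM.ι k) with hθ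
  have hmE : (m : E[X]) ≠ 0 := by
    rw [← Polynomial.C_eq_natCast]
    refine C_ne_zero.2 ?_
    have : m ≠ 0 := by omega
    exact_mod_cast this
  have gen : ∀ a' : ι → k[X][X], 2 * LamG ρ a a' =
      (m : k[X][X]) * ∑ l, a' l * ∏ j ∈ univ.erase l, a j := by
    intro a'
    unfold LamG
    rw [Finset.mul_sum, Finset.mul_sum]
    refine Finset.sum_congr rfl fun l _ => ?_
    have : (m : k[X][X]) = 2 * (ρ l : k[X][X]) := by
      rw [← hρ l]
      push_cast
      ring
    rw [this]
    ring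
  have e1 : 2 * (LamG ρ a (fun l => derivative (a l))).map θ =
      (m : E[X]) * derivative ((∏ l, a l).map θ) := by
    have h3 := congrArg (fun q => Polynomial.map θ q) (gen (fun l => derivative (a l)))
    simp only [Polynomial.map_mul, Polynomial.map_natCast, Polynomial.map_ofNat] at h3
    have h4 : ∑ l, derivative (a l) * ∏ j ∈ univ.erase l, a j = derivative (∏ l, a l) := by
      rw [derivative_prod_finset]
      exact Finset.sum_congr rfl fun l _ => mul_comm _ _
    rw [h3, h4, derivative_map]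
  have e2 : 2 * (LamG ρ a (fun l => dt (a l))).map θ =
      (m : E[X]) * (dt (∏ l, a l)).map θ := by
    have h3 := congrArg (fun q => Polynomial.map θ q) (gen (fun l => dt (a l)))
    simp only [Polynomial.map_mul, Polynomial.map_natCast, Polynomial.map_ofNat] at h3
    rw [h3, dt_prod]
  have h2 : 2 * P * (∏ l, a l).map θ + S * derivative ((∏ l, a l).map θ) =
      u * (dt (∏ l, a l)).map θ := by
    refine mul_left_cancel₀ hmE ?_
    linear_combination 2 * h1 - S * e1 + u * e2
  have h2P : (2 * P).natDegree < 2 * g := by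
    have : (2 : E[X]) * P = Polynomial.C 2 * P := rfl
    rw [this]
    exact (natDegree_C_mul_le _ _).trans_lt hP
  have h3 := hst u hu (2 * P) S h2P hS h2
  have e3 : Polynomial.C (2 : E)⁻¹ * (2 * P) = P := by
    have : (2 : E[X]) * P = Polynomial.C 2 * P := rfl
    rw [this, ← mul_assoc, ← C_mul, inv_mul_cancel₀ (two_ne_zero), C_1, one_mul]
  rw [e3] at h3
  exact h3

end Pool.Agent.Helper90.GX
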